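import Pool.Agent.H583_U.U7

/-!
MP_64ff02_ag, Q1: a criterion for the four properties, for quasi-projective varieties with rational
functions which take certain values with high multiplicities.

`y` is the generic point, in homogeneous coordinates, of a projective variety with function field
`L` (`coords ℂ y = ⊤`: the ratios generate `L`), `D` a set of forms, and `X` the complement of the
closed set `D = 0` in this variety; `In`, `CentreIn` (`Pool/Agent/H583_GQ/Defs.lean`): a point, or the
centre of a discrete valuation, lies in `D = 0`. `Family`: `x i`, `i < N`, are rational functions on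
`X` which define a generically finite rational map to `(ℙ¹)ᴺ`, such that the vectors of the
multiplicities of the values `a i j` of the functions `x i` at the points of curves in `X`, with
images not in a proper closed subset of `X`, are in the set `T`. `Good`, `Strong`: the numerical
conditions for `T`. `LogGT`, `PseudoPicard`, `PseudoBrody`, `PseudoGm`, `StronglyLog`: `X` is of log
general type, pseudo-Picard hyperbolic, pseudo-Brody hyperbolic, the images of the nonconstant
morphisms from the multiplicative group lie in a proper closed subset, and `X` is strongly of log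
general type.
-/

set_option autoImplicit false

namespace Pool.Agent.Results.MP_64ff02_ag.MultiplicityCriterion

open Pool.Agent.H583_GQ Pool.Agent.W602.GT

/-- Let `X`, the complement of `D = 0` in the projective variety with the generic point `y`, have
rational functions `x i` as in `Family`, where the `a i j` are different for different `j`.

(1) If the multiplicities satisfy `Good`, then `X` is pseudo-Picard hyperbolic and pseudo-Brody
hyperbolic (and the condition for the multiplicative group holds), strongly of log general type and,
if its dimension is positive, of log general type.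

(2) They satisfy `Good` if `p i ≥ 3` for all `i` and all vectors of multiplicities have the sum `0`
or a sum larger than `∑ p i / (p i - 2)`. -/
theorem result (M : ℕ) (L : Type) [Field L] [Algebra ℂ L] (y : Fin (M + 1) → L) (hy : y ≠ 0)
    (hgen : coords ℂ y = ⊤) (D : Set (MvPolynomial (Fin (M + 1)) ℂ)) (hD : ¬ In D y)
    (N : ℕ) (p : Fin N → ℕ) (a : ∀ i, Fin (p i) → ℂ) (ha : ∀ i, Function.Injective (a i))
    (x : Fin N → L) (T : Set (∀ i, Fin (p i) → ℕ)) (hF : Family a y D x T) :
    (Good p T → PseudoPicard y D ∧ PseudoBrody y D ∧ PseudoGm y D ∧ StronglyLog y D ∧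
      ∀ d : ℕ, 1 ≤ d → Algebra.trdeg ℂ L = d → LogGT y D d) ∧
    ((∀ i, 3 ≤ p i) → (∀ k ∈ T, k ≠ 0 →
      ∑ i, (p i : ℝ) / ((p i : ℝ) - 2) < ((∑ i, ∑ j, k i j : ℕ) : ℝ)) → Good p T) := by
  refine ⟨fun hT => ?_, Pool.Agent.H583_U.good_of_sum⟩
  obtain ⟨⟨h3, h4, h5⟩, -⟩ := (criterion ha hF hy hgen).1 hT
  have h6 := Pool.Agent.H583_U.good_strongly ha hF hy hgen hT
  exact ⟨h3, h4, h5, h6, fun d hd htr => h6.self hy hgen hD hd htr⟩

end Pool.Agent.Results.MP_64ff02_ag.MultiplicityCriterion
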